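import Pool.Agent.Helper77.PPL.Goals

/-!
# Project PPL (MP_fc6b1e_nt), packet D_GOL: a trivial twisted Selmer group implies good for all
admissible `L`
-/

namespace Pool.Agent.Helper82.PPL

open NumberField Polynomial Module IsDedekindDomain Pool.Agent.Helper51.SigLeo
open Pool.Agent.Helper51.RP Pool.Agent.Helper42.RD Pool.Agent.Helper77.RL Pool.Agent.Helper11.PP
open Pool.Agent.Helper77.PPL Pool.Agent.Helper42.PP

section prim

variable {M M' : Type} [Field M] [NumberField M] [Field M'] [NumberField M'] [Algebra M M']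

theorem mem_iff' (U : HeightOneSpectrum (𝓞 M')) (y : 𝓞 M) :
    algebraMap (𝓞 M) (𝓞 M') y ∈ U.asIdeal ↔ U.valuation M' (algebraMap M M' (y : M)) < 1 := by
  have e2 : algebraMap M M' (y : M) = algebraMap (𝓞 M') M' (algebraMap (𝓞 M) (𝓞 M') y) := by
    rfl
  rw [e2, HeightOneSpectrum.valuation_lt_one_iff_mem]

end prim

theorem above_trans {K M F : Type} [Field K] [NumberField K] [Field M] [NumberField M] [Field F]
    [NumberField F] [Algebra K M] [Algebra M F] [Algebra K F] [IsScalarTower K M F]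
    {P : HeightOneSpectrum (𝓞 F)} {W : HeightOneSpectrum (𝓞 M)} {v : HeightOneSpectrum (𝓞 K)}
    (h1 : Above P W) (h2 : Above W v) : Above P v := by
  unfold Above at h1 h2 ⊢
  rw [← h2, ← h1]
  ext x
  rw [Ideal.mem_comap, Ideal.mem_comap, Ideal.mem_comap, mem_iff', mem_iff']
  have : algebraMap K F (x : K) = algebraMap M F (algebraMap (𝓞 K) (𝓞 M) x : 𝓞 M) := by
    rw [IsScalarTower.algebraMap_apply K M F]
    rfl
  rw [this]

theorem ordv_mul {M : Type} [Field M] [NumberField M] (w : HeightOneSpectrum (𝓞 M)) {x y : M}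
    (hx : x ≠ 0) (hy : y ≠ 0) : ordv w (x * y) = ordv w x + ordv w y := by
  unfold ordv
  rw [map_mul, WithZero.log_mul]
  · ring
  · rwa [Ne, map_eq_zero]
  · rwa [Ne, map_eq_zero]

theorem ordv_pow {M : Type} [Field M] [NumberField M] (w : HeightOneSpectrum (𝓞 M)) (x : M)
    (n : ℕ) : ordv w (x ^ n) = n * ordv w x := by
  unfold ordv
  rw [map_pow, WithZero.log_pow]
  simp

/-- The valuations of an element of type `ω` at conjugate primes. -/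
theorem ord_conj (p : ℕ) [Fact p.Prime] (K K₁ M₁ : Type) [Field K] [Field K₁] [NumberField K₁]
    [Field M₁] [NumberField M₁] [Algebra K K₁] [Algebra K M₁] [Algebra K₁ M₁]
    [IsScalarTower K K₁ M₁] [IsGalois K K₁] (ε : K₁) (a : K₁) (ha : a ≠ 0)
    (hO : OmType p K ε a) (W W' : HeightOneSpectrum (𝓞 M₁)) (hc : ConjP K W' W)
    (h : (p : ℤ) ∣ ordv W' (algebraMap K₁ M₁ a)) : (p : ℤ) ∣ ordv W (algebraMap K₁ M₁ a) := by
  have hp : p.Prime := Fact.out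
  obtain ⟨g, hg⟩ := hc
  obtain ⟨n, c, -, hτ⟩ := hO (g.restrictNormal K₁)
  have h1 : g (algebraMap K₁ M₁ a) = algebraMap K₁ M₁ (g.restrictNormal K₁ a) :=
    (AlgEquiv.restrictNormal_commutes g K₁ a).symm
  have h2 : ordv W (algebraMap K₁ M₁ a) = ordv W' (g (algebraMap K₁ M₁ a)) := by
    unfold ordv
    rw [hg]
  have ha1 : algebraMap K₁ M₁ a ≠ 0 := by rwa [Ne, map_eq_zero]
  have hga : a ^ n * c ^ p ≠ 0 := by
    rw [← hτ]
    intro h0
    apply ha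
    have : g.restrictNormal K₁ a = g.restrictNormal K₁ 0 := by rw [h0, map_zero]
    exact (g.restrictNormal K₁).injective this
  have hc0 : c ≠ 0 := by
    rintro rfl
    apply hga
    rw [zero_pow hp.ne_zero, mul_zero]
  have hc1 : algebraMap K₁ M₁ c ≠ 0 := by rwa [Ne, map_eq_zero]
  rw [h2, h1, hτ, map_mul, map_pow, map_pow, ordv_mul W' (pow_ne_zero _ ha1) (pow_ne_zero _ hc1),
    ordv_pow, ordv_pow]
  exact dvd_add (h.mul_left _) (dvd_mul_right _ _)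

theorem d_gol (h1 : Pool.Agent.Helper77.PPL.D_DAT) (h2 : Pool.Agent.Helper77.RL.L_GOO)
    (h3 : Pool.Agent.Helper42.RD.E_TOW) (h4 : Pool.Agent.Helper42.RD.E_TRF)
    (h5 : Pool.Agent.Helper42.PP.P_UPR) : Pool.Agent.Helper77.PPL.D_GOL := by
  intro p _ K _ _ ιinf ιp Lg S hcl M _ _ χ₀ hχ₀ hcopM hnotle δ Φ P hδ hPhi K₁ M₁ _ _ _ _ _ _ _ _
    _ _ _ _ ε hT a ha ha3 hO hsel j hj s hs hns N _ hNp hgen L _ _ hNL hAdm
  obtain ⟨g1, g2, g3, g4, -, -⟩ := h3 p K M K₁ M₁ ε hT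
  have ha' : (a : K₁) ≠ 0 := RingOfIntegers.coe_ne_zero_iff.2 ha
  obtain ⟨al, hdat, hmat, hcomp⟩ := h1 p ℂ_[p] K M K₁ M₁ ε hT (finrank K M) δ
    ((χ₀ δ : ℂ_[p]ˣ) : ℂ_[p]) Φ P hPhi hδ rfl a ha ha3 hO
  set R : Set (HeightOneSpectrum (𝓞 M)) := RA p K (M := M) (algebraMap K₁ M₁ (a : K₁)) with hR
  have hset : {v : HeightOneSpectrum (𝓞 K) | ∃ w ∈ R, Above w v} =
      {v | (∃ w : HeightOneSpectrum (𝓞 M), Above w v ∧ FreeP K w) ∧
      ∃ Q : HeightOneSpectrum (𝓞 K₁), Above Q v ∧ ¬ (p : ℤ) ∣ ordv Q (a : K₁)} := by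
    ext v
    constructor
    · rintro ⟨w, ⟨hwf, W, hWw, hWa⟩, hwv⟩
      refine ⟨⟨w, hwv, hwf⟩, ?_⟩
      obtain ⟨Q, hQ⟩ := (h5 p K₁ M₁ ∅).2.2.2.1 W
      obtain ⟨v', hv'⟩ := (h5 p K K₁ ∅).2.2.2.1 Q
      have e1 : Above W v := above_trans hWw hwv
      have e2 : Above W v' := above_trans hQ hv'
      have e3 : v' = v := (h5 p K M₁ ∅).2.2.2.2.1 W v' v e2 e1
      refine ⟨Q, e3 ▸ hv', ?_⟩
      rwa [← (h4 p K₁ M₁ g4 W Q hQ).1 (a : K₁)]
    · rintro ⟨⟨w, hwv, hwf⟩, Q, hQv, hQa⟩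
      obtain ⟨W, hW⟩ := (h5 p K₁ M₁ ∅).2.2.2.2.2.1 Q
      obtain ⟨W', hW'⟩ := (h5 p M M₁ ∅).2.2.2.2.2.1 w
      have e1 : Above W v := above_trans hW hQv
      have e2 : Above W' v := above_trans hW' hwv
      have e3 : ConjP K W' W := (h5 p K M₁ ∅).2.2.2.2.2.2 v W W' e1 e2
      refine ⟨w, ⟨hwf, W', hW', fun h => ?_⟩, hwv⟩
      have e4 := ord_conj p K K₁ M₁ ε (a : K₁) ha' hO W W' e3 h
      exact hQa (((h4 p K₁ M₁ g4 W Q hW).1 (a : K₁)).1 e4)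
  rw [← hset] at hAdm
  have hinj : Function.Injective (algebraMap (𝓞 K₁) (𝓞 M₁)) :=
    FaithfulSMul.algebraMap_injective _ _
  refine h2 p K ιinf ιp Lg S hcl M χ₀ hχ₀ hcopM hnotle δ Φ P hδ hPhi R al hdat ?_ M₁ g3
    (algebraMap K₁ M₁ ε) (algebraMap (𝓞 K₁) (𝓞 M₁) a) ?_ ?_ ?_ hmat j hj s hs hns N hNp hgen L
    hNL hAdm
  · intro x hx
    exact hsel x (hcomp Lg (TSet ιinf ιp S) x hx)
  · exact hT.prim.map_of_injective (algebraMap K₁ M₁).injective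
  · intro h
    exact ha (hinj (by rw [h, map_zero]))
  · obtain ⟨b, hb⟩ := ha3
    refine ⟨algebraMap (𝓞 K₁) (𝓞 M₁) b, ?_⟩
    have := congrArg (algebraMap (𝓞 K₁) (𝓞 M₁)) hb
    rw [map_sub, map_mul, map_pow, map_one, map_natCast] at this
    exact this

end Pool.Agent.Helper82.PPL
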